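import Pool.Agent.helper68.GB.Spec

set_option autoImplicit false

namespace Pool.Agent.GB

open Pool.Agent.helper58.DC Pool.Agent.DI Pool.Agent.GR Pool.Agent.OB Pool.Agent.DR Pool.Agent.FI Pool.Agent.FI3 Pool.Agent.FI4 Pool.Agent.LE Pool.Agent.BR

section

variable {G : Type} [Group G]

theorem NIX_cvl {p : ℕ} {M : Ideal (integralClosure ℤ ℂ)} (hS : Setup p M) {a b : G → ℂ}
    (ha : ∀ x, InM M (a x)) (hb : ∀ x, IntAt M (b x)) (x : G) : InM M (cv a b x) := by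
  unfold cv
  exact InM.finsum hS (fun y => (ha y).mul_right hS (hb _))

theorem NIX_cvr {p : ℕ} {M : Ideal (integralClosure ℤ ℂ)} (hS : Setup p M) {a b : G → ℂ}
    (ha : ∀ x, IntAt M (a x)) (hb : ∀ x, InM M (b x)) (x : G) : InM M (cv a b x) := by
  unfold cv
  exact InM.finsum hS (fun y => InM.mul_left hS (ha y) (hb _))

theorem NIX_cv_sum [Finite G] (hCVF : CVF_stmt) {ι : Type} (s : Finset ι) (F : ι → G → ℂ)
    (f : G → ℂ) : cv (∑ i ∈ s, F i) f = ∑ i ∈ s, cv (F i) f := by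
  classical
  induction s using Finset.induction_on with
  | empty =>
    rw [Finset.sum_empty, Finset.sum_empty]
    funext x
    simp [cv]
  | insert i s hi ih =>
    rw [Finset.sum_insert hi, Finset.sum_insert hi, ← ih]
    exact ((hCVF G).2.1 _ _ _).1

theorem NIX_rsk_mem {K : Subgroup G} {z : G → ℂ} {x : G} (hx : x ∈ K) : rsk K z x = z x := by
  unfold rsk
  exact if_pos hx

theorem NIX_rsk_not {K : Subgroup G} {z : G → ℂ} {x : G} (hx : x ∉ K) : rsk K z x = 0 := by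
  unfold rsk
  exact if_neg hx

theorem NIX_rsk_int {p : ℕ} {M : Ideal (integralClosure ℤ ℂ)} (hS : Setup p M) {K : Subgroup G}
    {z : G → ℂ} (hz : ∀ x, IntAt M (z x)) (x : G) : IntAt M (rsk K z x) := by
  by_cases hx : x ∈ K
  · rw [NIX_rsk_mem hx]; exact hz x
  · rw [NIX_rsk_not hx]; exact IntAt.zero hS

theorem NIX_rsk_CF {K L : Subgroup G} (h : K ≤ L) {z : G → ℂ} (hz : CF L z) : CF K (rsk K z) := by
  refine ⟨?_, fun x hx => NIX_rsk_not hx⟩
  intro l hl x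
  by_cases hx : x ∈ K
  · rw [NIX_rsk_mem hx, NIX_rsk_mem (K.mul_mem (K.mul_mem hl hx) (K.inv_mem hl))]
    exact hz.1 l (h hl) x
  · rw [NIX_rsk_not hx, NIX_rsk_not]
    intro h1
    apply hx
    have h2 := K.mul_mem (K.mul_mem (K.inv_mem hl) h1) hl
    have h3 : l⁻¹ * (l * x * l⁻¹) * l = x := by group
    rwa [h3] at h2

/-- (F2): the products of two invariant idempotents. -/
theorem NIX_mul [Finite G] (hBRQ : BRQ_stmt) (hREP : REP_stmt) {p : ℕ}
    {M : Ideal (integralClosure ℤ ℂ)} (hS : Setup p M) (Q R : Subgroup G) (hR : IsPGroup p R)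
    (hQR : Q ≤ R) (e₁ e₂ : G → ℂ) (h1 : e₁ ∈ BB M (cz Q)) (h2 : e₂ ∈ BB M (cz Q))
    (i1 : Inv R e₁) (i2 : Inv R e₂) (x : G) :
    InM M (rsk (cz R) (cv e₁ e₂) x - cv (rsk (cz R) e₁) (rsk (cz R) e₂) x) := by
  have hK : cz Q ⊓ cz R = cz R := inf_eq_right.2 (cz_mono hQR)
  obtain ⟨_, a2, a3, _⟩ := (hREP p M hS G (cz Q)).2.2.2.1 e₁ h1
  obtain ⟨_, b2, b3, _⟩ := (hREP p M hS G (cz Q)).2.2.2.1 e₂ h2
  have h := hBRQ p M hS G (cz Q) R hR e₁ e₂ a2 b2 a3 b3 i1 i2 x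
  rw [hK] at h
  exact h

/-- the alternative -/
theorem NIX_alt [Finite G] (hDIC : DIC_stmt) (hBRQ : BRQ_stmt) (hREP : REP_stmt) {p : ℕ}
    {M : Ideal (integralClosure ℤ ℂ)} (hS : Setup p M) (Q R : Subgroup G) (hR : IsPGroup p R)
    (hQR : Q ≤ R) (e f : G → ℂ) (h1 : e ∈ BB M (cz Q)) (i1 : Inv R e) (hf : f ∈ BB M (cz R)) :
    (∀ x, InM M (cv (rsk (cz R) e) f x)) ∨ (∀ x, InM M (cv (rsk (cz R) e) f x - f x)) := by
  obtain ⟨a1, a2, a3, a4⟩ := (hREP p M hS G (cz Q)).2.2.2.1 e h1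
  have hidem : ∀ x, InM M (cv (rsk (cz R) e) (rsk (cz R) e) x - rsk (cz R) e x) := by
    intro x
    have h := NIX_mul hBRQ hREP hS Q R hR hQR e e h1 h1 i1 i1 x
    rw [a4] at h
    have h2 := h.neg
    rwa [neg_sub] at h2
  rcases (hDIC p M hS G (cz R)).2.2.2.2 f hf (rsk (cz R) e) (NIX_rsk_CF (cz_mono hQR) a1)
    (NIX_rsk_int hS a3) hidem with h | h
  · exact Or.inl h.1
  · exact Or.inr h.1

theorem NIX_uniq [Finite G] (hDIC : DIC_stmt) (hBRQ : BRQ_stmt) (hCVF : CVF_stmt)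
    (hREP : REP_stmt) {p : ℕ}
    {M : Ideal (integralClosure ℤ ℂ)} (hS : Setup p M) (Q R : Subgroup G) (hR : IsPGroup p R)
    (hQR : Q ≤ R) (e₁ e₂ f : G → ℂ) (h1 : e₁ ∈ BB M (cz Q)) (h2 : e₂ ∈ BB M (cz Q))
    (i1 : Inv R e₁) (i2 : Inv R e₂) (hf : f ∈ BB M (cz R))
    (n1 : ∀ x, InM M (cv (rsk (cz R) e₁) f x - f x))
    (n2 : ∀ x, InM M (cv (rsk (cz R) e₂) f x - f x)) : e₁ = e₂ := by
  by_contra hne
  apply (hDIC p M hS G (cz R)).2.1 f hf
  obtain ⟨_, _, a3, _⟩ := (hREP p M hS G (cz Q)).2.2.2.1 e₁ h1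
  obtain ⟨_, _, b3, _⟩ := (hREP p M hS G (cz Q)).2.2.2.1 e₂ h2
  obtain ⟨_, _, c3, _⟩ := (hREP p M hS G (cz R)).2.2.2.1 f hf
  have hz : cv e₁ e₂ = 0 := (hDIC p M hS G (cz Q)).2.2.1 e₁ h1 e₂ h2 hne
  have h12 : ∀ x, InM M (cv (rsk (cz R) e₁) (rsk (cz R) e₂) x) := by
    intro x
    have h := NIX_mul hBRQ hREP hS Q R hR hQR e₁ e₂ h1 h2 i1 i2 x
    rw [hz] at h
    have h0 : rsk (cz R) (0 : G → ℂ) x = 0 := by
      by_cases hx : x ∈ cz R
      · rw [NIX_rsk_mem hx]; rfl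
      · exact NIX_rsk_not hx
    rw [h0, zero_sub] at h
    have h3 := h.neg
    rwa [neg_neg] at h3
  intro x
  -- f = -(e₁' f - f) + e₁' f, e₁' f = -(e₁' (e₂' f - f)) + (e₁' e₂') f
  have s1 := n1 x
  have s2 : InM M (cv (rsk (cz R) e₁) (cv (rsk (cz R) e₂) f - f) x) :=
    NIX_cvr hS (NIX_rsk_int hS a3) n2 x
  have s3 : InM M (cv (cv (rsk (cz R) e₁) (rsk (cz R) e₂)) f x) := NIX_cvl hS h12 c3 x
  rw [((hCVF G).2.1 (rsk (cz R) e₁) (cv (rsk (cz R) e₂) f) f).2.2.2, ← (hCVF G).1] at s2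
  have h5 : f x = (cv (cv (rsk (cz R) e₁) (rsk (cz R) e₂)) f x -
      (cv (cv (rsk (cz R) e₁) (rsk (cz R) e₂)) f - cv (rsk (cz R) e₁) f) x) -
      (cv (rsk (cz R) e₁) f x - f x) := by
    rw [Pi.sub_apply]; ring
  rw [h5]
  exact (s3.sub hS s2).sub hS s1

end

theorem NIX (hDIC : DIC_stmt) (hCJB : CJB_stmt) (hBRQ : BRQ_stmt) (hORP : ORP_stmt)
    (hCVF : CVF_stmt) (hREP : REP_stmt) : NIX_stmt := by
  classical
  intro p M hS G _ _ Q R f hf hQR hRQ
  have hcz : cz R ≤ cz Q := cz_mono hQR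
  obtain ⟨hfin, _, _, hbb, _⟩ := hREP p M hS G (cz Q)
  obtain ⟨c1, c2, c3, c4⟩ := (hREP p M hS G (cz R)).2.2.2.1 f hf.bb
  -- the action
  have hcjz : ∀ r ∈ R, cjS r (cz Q) = cz Q := by
    intro r hr
    have h1 : cj r Q = Q := cj_nz.2 (hRQ hr)
    have h2 := cj_cz r Q
    rw [h1] at h2
    exact h2.symm
  let X : Type := {e : G → ℂ // e ∈ BB M (cz Q)}
  haveI : Finite X := hfin.to_subtype
  let act : R → X → X := fun r e => ⟨cjF (r : G) e.1, by
    have h := ((hCJB p M hS G (r : G) (cz Q) e.1).1).1 e.2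
    rwa [hcjz r r.2] at h⟩
  letI : MulAction R X :=
    { smul := act
      one_smul := by
        intro e
        apply Subtype.ext
        exact funMap_one' e.1
      mul_smul := by
        intro a b e
        apply Subtype.ext
        exact funMap_mul (a : G) (b : G) e.1 }
  have hsm : ∀ (r : R) (e : X), (r • e).1 = cjF (r : G) e.1 := fun r e => rfl
  have hinv : ∀ e ∈ MulAction.fixedPoints R X, Inv R e.1 := by
    intro e he r hr x
    have h1 := he (⟨r, hr⟩ : R)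
    have h2 : cjF r e.1 = e.1 := by
      have h3 := congrArg Subtype.val h1
      rwa [hsm] at h3
    have h3 := congrFun h2 (r * x * r⁻¹)
    rw [cjF_apply] at h3
    have h4 : r⁻¹ * (r * x * r⁻¹) * r = x := by group
    rw [h4] at h3
    exact h3.symm
  have hFPfin : (MulAction.fixedPoints R X).Finite := Set.toFinite _
  set FP : Finset X := hFPfin.toFinset with hFP
  set g : G → ℂ := ∑ e ∈ FP, rsk (cz R) e.1 with hg
  have hgx : ∀ x, g x = ∑ e ∈ FP, rsk (cz R) e.1 x := by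
    intro x
    rw [hg, Finset.sum_apply]
  have hdlg : ∀ x, InM M (((GR.dl : G → ℂ) - g) x) := by
    intro x
    rw [Pi.sub_apply, hgx]
    by_cases hx : x ∈ cz R
    · have h1 := hORP p M hS R hf.pg X (fun e => e.1 x) (fun e => (hbb e.1 e.2).2.2.1 x) ?_
      · have h2 : ∑ᶠ e : X, e.1 x = GR.dl x := by
          rw [← (hDIC p M hS G (cz Q)).2.2.2.1 x]
          exact finsum_set_coe_eq_finsum_mem (f := fun e : G → ℂ => e x) (BB M (cz Q))
        have h3 : ∑ᶠ e ∈ MulAction.fixedPoints R X, e.1 x = ∑ e ∈ FP, rsk (cz R) e.1 x := by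
          rw [finsum_mem_eq_finite_toFinset_sum _ hFPfin]
          refine Finset.sum_congr rfl fun e _ => ?_
          rw [NIX_rsk_mem hx]
        rw [h2, h3] at h1
        exact h1
      · intro r e
        change cjF (r : G) e.1 x = e.1 x
        rw [cjF_apply]
        have h4 : (r : G) * x = x * (r : G) := Subgroup.mem_centralizer_iff.1 hx r r.2
        have h5 : (r : G)⁻¹ * x * (r : G) = x := by
          rw [mul_assoc, ← h4, ← mul_assoc, inv_mul_cancel, one_mul]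
        rw [h5]
    · have h1 : (GR.dl : G → ℂ) x = 0 := by
        unfold GR.dl
        rw [if_neg]
        rintro rfl
        exact hx (Subgroup.one_mem _)
      rw [h1, Finset.sum_eq_zero (fun e _ => NIX_rsk_not hx), sub_zero]
      exact InM.zero hS
  have hex : ∃ e ∈ FP, ¬ ∀ x, InM M (cv (rsk (cz R) e.1) f x) := by
    by_contra hall
    push Not at hall
    apply (hDIC p M hS G (cz R)).2.1 f hf.bb
    intro x
    have h1 : InM M (cv ((GR.dl : G → ℂ) - g) f x) := NIX_cvl hS hdlg c3 x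
    rw [((hCVF G).2.1 GR.dl g f).2.2.1, ((hCVF G).2.2.2.1 f).1, Pi.sub_apply] at h1
    have h2 : InM M (cv g f x) := by
      rw [hg, NIX_cv_sum hCVF, Finset.sum_apply]
      exact InM.sum hS _ (fun e he => hall e he x)
    have h3 := h1.add hS h2
    rwa [sub_add_cancel] at h3
  obtain ⟨e, he, hne⟩ := hex
  have heFP : e ∈ MulAction.fixedPoints R X := by
    rw [hFP, Set.Finite.mem_toFinset] at he
    exact he
  have hei : Inv R e.1 := hinv e heFP
  have hef : ∀ x, InM M (cv (rsk (cz R) e.1) f x - f x) := by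
    rcases NIX_alt hDIC hBRQ hREP hS Q R hf.pg hQR e.1 f e.2 hei hf.bb with h | h
    · exact absurd h hne
    · exact h
  refine ⟨e.1, ⟨⟨hf.pg.to_le hQR, e.2⟩, hf, hQR, hRQ, hei, hef⟩, ?_⟩
  intro e' he'
  exact NIX_uniq hDIC hBRQ hCVF hREP hS Q R hf.pg hQR e' e.1 f he'.q.bb e.2 he'.inv hei hf.bb
    he'.ef hef

end Pool.Agent.GB
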